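import Pool.Agent.NL.StmtsB

/-!
# NL, row GSB: good neighbours
-/

set_option autoImplicit false

open MeasureTheory Filter Topology

noncomputable section

namespace Pool.Agent.NL.H17

theorem V_add_single (G : ℝ → Z) (b : ℝ →₀ ℝ) (s β : ℝ) :
    V G (b + Finsupp.single s β) = V G b + β • G s := by
  unfold V
  rw [map_add, Finsupp.linearCombination_single]

theorem rho_le_sub {X : Type} [NormedAddCommGroup X] [NormedSpace ℝ X] (Ψ : X →ₗᵢ[ℝ] Z) (z : Z)
    (y : X) : rho Ψ z ≤ ‖z - Ψ y‖ := by
  unfold rho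
  have h := Metric.infDist_le_dist_of_mem (x := z) (s := Set.range Ψ) (y := Ψ y) ⟨y, rfl⟩
  rwa [dist_eq_norm] at h

theorem gsb (hNRV : NrvStmt) (hSTQ : StqStmt) (hLBD : LbdStmt) (hGND : GndStmt) : GsbStmt := by
  classical
  intro X _ _ f F G Ψ hC δ A hA W hW hWA s hs E _ ε hε
  have hδ : 0 < δ := hA.pos
  set K : ℝ := 1 + 2 * W.card / δ with hK
  have hKp : 0 < K := by
    have : 0 ≤ 2 * (W.card : ℝ) / δ := by positivity
    rw [hK]; linarith
  set e : ℝ := min ε 1 with he
  have hep : 0 < e := lt_min hε one_pos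
  have he1 : e ≤ 1 := min_le_right _ _
  have hee : e ≤ ε := min_le_left _ _
  set η : ℝ := min (ε / K) (δ * (e / 3)) with hη
  have hηp : 0 < η := lt_min (by positivity) (by positivity)
  have hη1 : η * K ≤ ε := by
    have h1 : η ≤ ε / K := min_le_left _ _
    calc η * K ≤ ε / K * K := mul_le_mul_of_nonneg_right h1 hKp.le
      _ = ε := by field_simp
  have hη2 : η ≤ δ * (e / 3) := min_le_right _ _
  obtain ⟨Φ, hΦ⟩ := hNRV X G Ψ W E (e / 3) (by positivity)
  have hQ := hSTQ X f F G Ψ hC W hW s hs Φ E η hηp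
  have hden : ∀ᶠ x in dens s, x ∈ A := hA.den s (hWA s hs)
  filter_upwards [hQ, hden] with x hx hxA
  obtain ⟨hxW, hxG, hxk, hxu⟩ := hx
  refine ⟨hxA, hxW, hxG, ?_, ?_⟩
  · intro b hb β y hy
    have hb2 : (b + Finsupp.single s β).support ⊆ W := by
      refine (Finsupp.support_add).trans (Finset.union_subset hb ?_)
      exact (Finsupp.support_single_subset).trans (Finset.singleton_subset_iff.2 hs)
    obtain ⟨k, hk, hkn⟩ := hΦ (b + Finsupp.single s β) hb2 y hy
    rw [V_add_single] at hkn
    have hb3 : (b + Finsupp.single x β).support ⊆ insert x W := by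
      refine (Finsupp.support_add).trans (Finset.union_subset
        (hb.trans (Finset.subset_insert _ _)) ?_)
      exact (Finsupp.support_single_subset).trans
        (Finset.singleton_subset_iff.2 (Finset.mem_insert_self _ _))
    have hfar : ∀ z ∈ insert x W, δ ≤ rho Ψ (G z) := by
      intro z hz
      rcases Finset.mem_insert.1 hz with rfl | hz
      · exact hA.far _ hxA
      · exact hA.far _ (hWA z hz)
    have hgood := (hGND X G Ψ (insert x W) hxG).1
    have hl := (hLBD X f F G Ψ hC δ hδ (insert x W) hgood hfar (b + Finsupp.single x β) hb3).1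
      x (Finset.mem_insert_self _ _)
    have hbx : b x = 0 := by
      by_contra h
      exact hxW (hb (Finsupp.mem_support_iff.2 h))
    rw [V_add_single] at hl
    rw [Finsupp.add_apply, hbx, Finsupp.single_eq_same, zero_add] at hl
    have hr := rho_le_sub Ψ (V G b + β • G x) y
    set P : ℝ := ‖V G b + β • G x - Ψ y‖ with hP
    have hP0 : 0 ≤ P := norm_nonneg _
    have hβ : δ * |β| ≤ P := hl.trans hr
    have hcoord : |(V G b + β • G s - Ψ y) k| ≤ P + |β| * η := by
      have h1 : (V G b + β • G s - Ψ y) k = (V G b + β • G x - Ψ y) k - β * (G x k - G s k) := by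
        simp only [BoundedContinuousFunction.coe_sub, BoundedContinuousFunction.coe_add,
          BoundedContinuousFunction.coe_smul, Pi.sub_apply, Pi.add_apply, smul_eq_mul]
        ring
      rw [h1]
      have h2 : |(V G b + β • G x - Ψ y) k| ≤ P := by
        have := (V G b + β • G x - Ψ y).norm_coe_le_norm k
        rwa [Real.norm_eq_abs] at this
      have h3 : |β * (G x k - G s k)| ≤ |β| * η := by
        rw [abs_mul]
        exact mul_le_mul_of_nonneg_left (hxk k hk) (abs_nonneg _)
      calc |(V G b + β • G x - Ψ y) k - β * (G x k - G s k)|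
          ≤ |(V G b + β • G x - Ψ y) k| + |β * (G x k - G s k)| := abs_sub _ _
        _ ≤ P + |β| * η := add_le_add h2 h3
    have h4 : |β| * η ≤ e / 3 * P := by
      calc |β| * η ≤ |β| * (δ * (e / 3)) := mul_le_mul_of_nonneg_left hη2 (abs_nonneg _)
        _ = (δ * |β|) * (e / 3) := by ring
        _ ≤ P * (e / 3) := mul_le_mul_of_nonneg_right hβ (by positivity)
        _ = e / 3 * P := by ring
    calc ‖V G b + β • G s - Ψ y‖ ≤ (1 + e / 3) * |(V G b + β • G s - Ψ y) k| := hkn
      _ ≤ (1 + e / 3) * (P + e / 3 * P) := by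
          refine mul_le_mul_of_nonneg_left (hcoord.trans (by linarith)) (by positivity)
      _ ≤ (1 + ε) * P := by
          have h5 : (1 + e / 3) * (1 + e / 3) ≤ 1 + ε := by nlinarith
          calc (1 + e / 3) * (P + e / 3 * P) = ((1 + e / 3) * (1 + e / 3)) * P := by ring
            _ ≤ (1 + ε) * P := mul_le_mul_of_nonneg_right h5 hP0
  · intro b hb t ht0 ht1 y hy
    have hgood := (hGND X G Ψ W hW).1
    have hl := (hLBD X f F G Ψ hC δ hδ W hgood (fun z hz => hA.far z (hWA z hz)) b hb).2 y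
    have hu := hxu b hb y hy
    set u : Z := V G b - Ψ y with hu0
    have h1 : V G b + (t * b s) • (G x - G s) - Ψ y
        = (1 - t) • u + t • (V G b + b s • (G x - G s) - Ψ y) := by
      rw [hu0]; module
    rw [h1]
    have hl' : l1 b + ‖y‖ ≤ K * ‖u‖ := hl
    have hlp : η * (l1 b + ‖y‖) ≤ ε * ‖u‖ := by
      calc η * (l1 b + ‖y‖) ≤ η * (K * ‖u‖) := mul_le_mul_of_nonneg_left hl' hηp.le
        _ = (η * K) * ‖u‖ := by ring
        _ ≤ ε * ‖u‖ := mul_le_mul_of_nonneg_right hη1 (norm_nonneg _)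
    calc ‖(1 - t) • u + t • (V G b + b s • (G x - G s) - Ψ y)‖
        ≤ ‖(1 - t) • u‖ + ‖t • (V G b + b s • (G x - G s) - Ψ y)‖ := norm_add_le _ _
      _ = (1 - t) * ‖u‖ + t * ‖V G b + b s • (G x - G s) - Ψ y‖ := by
          rw [norm_smul, norm_smul, Real.norm_eq_abs, Real.norm_eq_abs, abs_of_nonneg ht0,
            abs_of_nonneg (by linarith : (0 : ℝ) ≤ 1 - t)]
      _ ≤ (1 - t) * ‖u‖ + t * (‖u‖ + ε * ‖u‖) := by
          refine add_le_add le_rfl (mul_le_mul_of_nonneg_left (hu.trans ?_) ht0)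
          linarith
      _ ≤ (1 + ε) * ‖u‖ := by
          have h6 : t * (ε * ‖u‖) ≤ 1 * (ε * ‖u‖) :=
            mul_le_mul_of_nonneg_right ht1 (by positivity)
          nlinarith

end Pool.Agent.NL.H17
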